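import Mathlib

set_option autoImplicit false

namespace Pool.Agent.Results.MP_7b3742_al.AffineAutomata

open scoped commutatorElement

/-- `g` is an affine automorphism of the tree of words over `ZMod d`: there are an infinite upper
triangular matrix `A` with unit diagonal entries and a vector `b` such that `g` sends a word
`w` to the word of the same length whose `j`-th letter is `b j + ∑ i, w i * A i j`. -/
def IsAffine (d : ℕ) (g : Equiv.Perm (List (ZMod d))) : Prop :=
  ∃ (A : ℕ → ℕ → ZMod d) (b : ℕ → ZMod d),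
    (∀ i j : ℕ, j < i → A i j = 0) ∧ (∀ i : ℕ, IsUnit (A i i)) ∧
    ∀ w : List (ZMod d), g w =
      List.ofFn (fun j : Fin w.length => b j + ∑ i : Fin w.length, w.get i * A i j)

/-- The set of states of `g`: the maps `h` with `g (w v) = g(w) h(v)` for some word `w` and all
words `v`. -/
def states {d : ℕ} (g : Equiv.Perm (List (ZMod d))) : Set (Equiv.Perm (List (ZMod d))) :=
  {h | ∃ w : List (ZMod d), ∀ v : List (ZMod d), g (w ++ v) = g w ++ h v}

/-- The group generated by the automaton (i.e. by the states) of `g`. -/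
def autGroup {d : ℕ} (g : Equiv.Perm (List (ZMod d))) : Subgroup (Equiv.Perm (List (ZMod d))) :=
  Subgroup.closure (states g)

/-- An element of the regular wreath product has finite support if its first component (a
function `Q → D`) is trivial outside a finite set. -/
def FinSupp {D Q : Type} [Group D] [Group Q] (w : RegularWreathProduct D Q) : Prop :=
  {x : Q | w.left x ≠ 1}.Finite

lemma finSupp_one {D Q : Type} [Group D] [Group Q] : FinSupp (1 : RegularWreathProduct D Q) := by
  have : {x : Q | (1 : RegularWreathProduct D Q).left x ≠ 1} = ∅ := by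
    ext x; simp
  rw [FinSupp, this]
  exact Set.finite_empty

lemma finSupp_mul {D Q : Type} [Group D] [Group Q] {v w : RegularWreathProduct D Q}
    (hv : FinSupp v) (hw : FinSupp w) : FinSupp (v * w) := by
  have h2 : ((fun x : Q => v.right⁻¹ * x) ⁻¹' {x : Q | w.left x ≠ 1}).Finite :=
    hw.preimage ((mul_right_injective v.right⁻¹).injOn)
  refine (hv.union h2).subset ?_
  intro x hx
  by_contra hn
  simp only [Set.mem_union, Set.mem_ofPred_eq, Set.mem_preimage, not_or, not_not] at hn
  exact hx (by simp [hn.1, hn.2])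

lemma finSupp_inv {D Q : Type} [Group D] [Group Q] {v : RegularWreathProduct D Q}
    (hv : FinSupp v) : FinSupp v⁻¹ := by
  have h2 : ((fun x : Q => v.right * x) ⁻¹' {x : Q | v.left x ≠ 1}).Finite :=
    hv.preimage ((mul_right_injective v.right).injOn)
  refine h2.subset ?_
  intro x hx hn
  exact hx (by simpa using hn)

/-- The restricted wreath product `D ≀ Q = (⊕_Q D) ⋊ Q`: the elements of finite support in the
(unrestricted) regular wreath product. -/
def restrictedWreath (D Q : Type) [Group D] [Group Q] : Subgroup (RegularWreathProduct D Q) where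
  carrier := {w | FinSupp w}
  mul_mem' := finSupp_mul
  one_mem' := finSupp_one
  inv_mem' := finSupp_inv

/-- The restricted wreath product `(ZMod e) ^ k ≀ ℤ ^ l`. -/
abbrev Wreath (e k l : ℕ) : Type :=
  restrictedWreath (Multiplicative (Fin k → ZMod e)) (Multiplicative (Fin l → ℤ))

/-- `G` is a finite extension of `H`: it has a normal subgroup of finite index isomorphic to
`H`. -/
def IsFiniteExtension (G H : Type) [Group G] [Group H] : Prop :=
  ∃ N : Subgroup G, N.Normal ∧ N.FiniteIndex ∧ Nonempty (N ≃* H)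

/-! ### A law in finite extensions of `(ZMod e) ^ k ≀ ℤ ^ l` -/

lemma pow_of_right_eq_one {D Q : Type} [Group D] [Group Q] (w : RegularWreathProduct D Q)
    (hw : w.right = 1) (n : ℕ) : (w ^ n).right = 1 ∧ (w ^ n).left = w.left ^ n := by
  induction n with
  | zero => simp
  | succ n ih =>
    rw [pow_succ']
    refine ⟨by simp [hw, ih.1], ?_⟩
    rw [pow_succ']
    simp only [RegularWreathProduct.mul_left, hw, inv_one, one_mul, ih.2]

lemma wreath_law {e k l : ℕ} (x y : Wreath e k l) : ⁅x, y⁆ ^ e = 1 := by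
  apply Subtype.ext
  rw [Subgroup.coe_pow, Subgroup.coe_one]
  set w : RegularWreathProduct (Multiplicative (Fin k → ZMod e)) (Multiplicative (Fin l → ℤ)) :=
    (⁅x, y⁆ : Wreath e k l).1 with hw
  have hr : w.right = 1 := by
    have : w.right = x.1.right * y.1.right * x.1.right⁻¹ * y.1.right⁻¹ := rfl
    rw [this, mul_comm x.1.right y.1.right]
    group
  obtain ⟨h1, h2⟩ := pow_of_right_eq_one w hr e
  ext z i
  · rw [h2]
    simp only [Pi.pow_apply, RegularWreathProduct.one_left, Pi.one_apply, toAdd_pow, toAdd_one]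
    simp
  · rw [h1]
    rfl

lemma extension_law {G : Type} [Group G] {e k l : ℕ} (h : IsFiniteExtension G (Wreath e k l)) :
    ∃ n : ℕ, 0 < n ∧ ∀ x y : G, ⁅x ^ n, y ^ n⁆ ^ e = 1 := by
  obtain ⟨N, hN, hfin, ⟨φ⟩⟩ := h
  refine ⟨N.index, Nat.pos_of_ne_zero hfin.index_ne_zero, fun x y => ?_⟩
  have hx : x ^ N.index ∈ N := N.pow_index_mem x
  have hy : y ^ N.index ∈ N := N.pow_index_mem y
  have h1 : ⁅(⟨_, hx⟩ : N), (⟨_, hy⟩ : N)⁆ ^ e = 1 := by
    apply φ.injective
    rw [map_pow, map_commutatorElement, wreath_law, map_one]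
  have h2 := congrArg (N.subtype) h1
  rw [map_pow, map_commutatorElement, map_one] at h2
  exact h2

/-! ### Affine maps of words, recursively -/

/-- The affine map of words with matrix `A` and vector `b`, letter by letter. -/
def aff {d : ℕ} : (ℕ → ℕ → ZMod d) → (ℕ → ZMod d) → List (ZMod d) → List (ZMod d)
  | _, _, [] => []
  | A, b, x :: v => (b 0 + x * A 0 0) ::
      aff (fun i j => A (i + 1) (j + 1)) (fun j => b (j + 1) + x * A 0 (j + 1)) v

/-- The inverse of `aff A b` when `A` has ones on the diagonal. -/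
def affInv {d : ℕ} : (ℕ → ℕ → ZMod d) → (ℕ → ZMod d) → List (ZMod d) → List (ZMod d)
  | _, _, [] => []
  | A, b, y :: v => (y - b 0) ::
      affInv (fun i j => A (i + 1) (j + 1)) (fun j => b (j + 1) + (y - b 0) * A 0 (j + 1)) v

variable {d : ℕ}

lemma affInv_aff (v : List (ZMod d)) : ∀ (A : ℕ → ℕ → ZMod d) (b : ℕ → ZMod d),
    (∀ i, A i i = 1) → affInv A b (aff A b v) = v := by
  induction v with
  | nil => intro A b _; rfl
  | cons x v ih =>
    intro A b hA
    simp only [aff, affInv, hA 0, mul_one, add_sub_cancel_left]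
    rw [ih _ _ (fun i => hA (i + 1))]

lemma aff_affInv (v : List (ZMod d)) : ∀ (A : ℕ → ℕ → ZMod d) (b : ℕ → ZMod d),
    (∀ i, A i i = 1) → aff A b (affInv A b v) = v := by
  induction v with
  | nil => intro A b _; rfl
  | cons x v ih =>
    intro A b hA
    simp only [aff, affInv, hA 0, mul_one, add_sub_cancel]
    rw [ih _ _ (fun i => hA (i + 1))]

lemma aff_length (v : List (ZMod d)) : ∀ (A : ℕ → ℕ → ZMod d) (b : ℕ → ZMod d),
    (aff A b v).length = v.length := by
  induction v with
  | nil => intro A b; rfl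
  | cons x v ih => intro A b; simp [aff, ih]

lemma aff_getElem (w : List (ZMod d)) : ∀ (A : ℕ → ℕ → ZMod d) (b : ℕ → ZMod d),
    (∀ i j, j < i → A i j = 0) → ∀ (j : ℕ) (hj : j < (aff A b w).length),
      (aff A b w)[j] = b j + ∑ i : Fin w.length, w.get i * A i j := by
  induction w with
  | nil => intro A b _ j hj; simp [aff] at hj
  | cons x v ih =>
    intro A b hA j hj
    rcases j with _ | j
    · simp only [aff, List.getElem_cons_zero]
      congr 1
      simp only [List.length_cons]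
      rw [Fin.sum_univ_succ]
      simp [hA _ 0 (Nat.succ_pos _)]
    · simp only [aff, List.getElem_cons_succ]
      rw [ih _ _ (fun i j hij => hA (i + 1) (j + 1) (by omega))]
      simp only [List.length_cons]
      rw [Fin.sum_univ_succ]
      simp [add_assoc]

lemma aff_eq_ofFn (w : List (ZMod d)) (A : ℕ → ℕ → ZMod d) (b : ℕ → ZMod d)
    (hA : ∀ i j, j < i → A i j = 0) :
    aff A b w = List.ofFn (fun j : Fin w.length => b j + ∑ i : Fin w.length, w.get i * A i j) := by
  apply List.ext_getElem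
  · simp [aff_length]
  · intro j h1 h2
    rw [aff_getElem w A b hA j h1]
    simp

/-- The permutation of words given by `aff A b`. -/
def affPerm (A : ℕ → ℕ → ZMod d) (b : ℕ → ZMod d) (hA : ∀ i, A i i = 1) :
    Equiv.Perm (List (ZMod d)) where
  toFun := aff A b
  invFun := affInv A b
  left_inv v := affInv_aff v A b hA
  right_inv v := aff_affInv v A b hA

/-! ### The matrices -/

/-- The matrix `A^{(s)}`: the entry at `(i, j)` is `1` if `j = i`, or if `j = i + 1` and
`4 ∣ i + s`, or if `j = i + 5` and `i + s` is `2` modulo `4`. -/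
def mat (d s : ℕ) : ℕ → ℕ → ZMod d := fun i j =>
  if j = i then 1
  else if j = i + 1 ∧ (i + s) % 4 = 0 then 1
  else if j = i + 5 ∧ (i + s) % 4 = 2 then 1
  else 0

lemma mat_diag (s i : ℕ) : mat d s i i = 1 := by simp [mat]

lemma mat_lower (s : ℕ) : ∀ i j, j < i → mat d s i j = 0 := by
  intro i j hij
  unfold mat
  rw [if_neg (by omega), if_neg (by omega), if_neg (by omega)]

lemma mat_shift (s : ℕ) : (fun i j => mat d s (i + 1) (j + 1)) = mat d (s + 1) := by
  funext i j
  unfold mat
  have e1 : (j + 1 = i + 1) ↔ (j = i) := by omega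
  have e2 : (j + 1 = i + 1 + 1 ∧ (i + 1 + s) % 4 = 0) ↔ (j = i + 1 ∧ (i + (s + 1)) % 4 = 0) := by
    omega
  have e3 : (j + 1 = i + 1 + 5 ∧ (i + 1 + s) % 4 = 2) ↔ (j = i + 5 ∧ (i + (s + 1)) % 4 = 2) := by
    omega
  simp only [e1, e2, e3]

lemma mat_four (s : ℕ) : mat d (s + 4) = mat d s := by
  funext i j
  unfold mat
  have e2 : (i + (s + 4)) % 4 = (i + s) % 4 := by omega
  simp only [e2]

lemma mat_mod (s : ℕ) : mat d (s % 4) = mat d s := by
  funext i j
  unfold mat
  have e2 : (i + s % 4) % 4 = (i + s) % 4 := by omega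
  simp only [e2]

/-- The elementary affine permutations. -/
def T (d s : ℕ) (b : ℕ → ZMod d) : Equiv.Perm (List (ZMod d)) :=
  affPerm (mat d s) b (mat_diag s)

lemma T_cons (s : ℕ) (b : ℕ → ZMod d) (x : ZMod d) (v : List (ZMod d)) :
    T d s b (x :: v) = (b 0 + x) :: T d (s + 1) (fun j => b (j + 1) + x * mat d s 0 (j + 1)) v := by
  change aff _ _ _ = _ :: aff _ _ _
  simp only [aff, mat_diag, mul_one, mat_shift]

lemma T_nil (s : ℕ) (b : ℕ → ZMod d) : T d s b [] = [] := rfl

lemma T_mod (s : ℕ) (b : ℕ → ZMod d) : T d (s % 4) b = T d s b := by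
  ext1 v
  change aff _ _ _ = aff _ _ _
  rw [mat_mod]

lemma T_append (w : List (ZMod d)) : ∀ (s : ℕ) (b : ℕ → ZMod d), (∀ j, 5 ≤ j → b j = 0) →
    ∃ (s' : ℕ) (b' : ℕ → ZMod d), (∀ j, 5 ≤ j → b' j = 0) ∧
      ∀ v, T d s b (w ++ v) = T d s b w ++ T d s' b' v := by
  induction w with
  | nil =>
    intro s b hb
    exact ⟨s, b, hb, fun v => by simp [T_nil]⟩
  | cons x w ih =>
    intro s b hb
    obtain ⟨s', b', hb', h⟩ := ih (s + 1) (fun j => b (j + 1) + x * mat d s 0 (j + 1)) (by
      intro j hj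
      have e1 : b (j + 1) = 0 := hb _ (by omega)
      have e2 : mat d s 0 (j + 1) = 0 := by
        unfold mat
        rw [if_neg (by omega), if_neg (by omega), if_neg (by omega)]
      simp only [e1, e2, mul_zero, add_zero])
    refine ⟨s', b', hb', fun v => ?_⟩
    rw [List.cons_append, T_cons, h, T_cons, List.cons_append]

/-- The affine automorphism of the counterexample. -/
def gen (d : ℕ) : Equiv.Perm (List (ZMod d)) := T d 0 (fun _ => 0)

lemma gen_affine : IsAffine d (gen d) := by
  refine ⟨mat d 0, fun _ => 0, mat_lower 0, fun i => ?_, fun w => ?_⟩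
  · rw [mat_diag]; exact isUnit_one
  · exact aff_eq_ofFn w _ _ (mat_lower 0)

lemma finite_states [NeZero d] : (states (gen d)).Finite := by
  have hfin : {b : ℕ → ZMod d | ∀ j, 5 ≤ j → b j = 0}.Finite := by
    have : Finite (ZMod d) := inferInstance
    have hinj : Set.InjOn (fun (b : ℕ → ZMod d) (i : Fin 5) => b i)
        {b : ℕ → ZMod d | ∀ j, 5 ≤ j → b j = 0} := by
      intro b hb b' hb' h
      funext j
      by_cases hj : j < 5
      · exact congrFun h ⟨j, hj⟩
      · rw [hb j (by omega), hb' j (by omega)]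
    exact Set.Finite.of_finite_image (Set.toFinite _) hinj
  refine Set.Finite.subset (((Set.finite_lt_nat 4).prod hfin).image
    (fun p : ℕ × (ℕ → ZMod d) => T d p.1 p.2)) ?_
  rintro h ⟨w, hw⟩
  obtain ⟨s', b', hb', h'⟩ := T_append w 0 (fun _ => (0 : ZMod d)) (fun _ _ => rfl)
  refine ⟨(s' % 4, b'), ⟨?_, hb'⟩, ?_⟩
  · change s' % 4 < 4
    omega
  · change T d (s' % 4) b' = h
    rw [T_mod]
    ext1 v
    have h1 := hw v
    have h2 := h' v
    change gen d (w ++ v) = gen d w ++ _ at h2
    rw [h1] at h2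
    exact (List.append_cancel_left h2).symm

/-- The linear elementary permutations are states of `gen d`. -/
lemma lin_mem_states (s : ℕ) : T d s (fun _ => 0) ∈ states (gen d) := by
  suffices h : ∀ (s s₀ : ℕ) (v : List (ZMod d)),
      T d s₀ (fun _ => 0) (List.replicate s 0 ++ v) =
        T d s₀ (fun _ => 0) (List.replicate s 0) ++ T d (s₀ + s) (fun _ => 0) v by
    refine ⟨List.replicate s 0, fun v => ?_⟩
    have := h s 0 v
    rw [Nat.zero_add] at this
    exact this
  intro s
  induction s with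
  | zero => intro s₀ v; simp [T_nil]
  | succ s ih =>
    intro s₀ v
    have e : (fun j : ℕ => (0 : ZMod d) + 0 * mat d s₀ 0 (j + 1)) = fun _ => 0 := by
      funext j; simp
    rw [List.replicate_succ, List.cons_append, T_cons, T_cons, e, ih, List.cons_append,
      show s₀ + 1 + s = s₀ + (s + 1) by omega]

/-! ### The boundary action -/

/-- The map `v ↦ v + (terms)` of the boundary, with parameters `p`, `q`. -/
def S (s : ℕ) (p q : ZMod d) (v : ℕ → ZMod d) : ℕ → ZMod d := fun j =>
  v j + (if 1 ≤ j ∧ (j - 1 + s) % 4 = 0 then p * v (j - 1) else 0)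
    + (if 5 ≤ j ∧ (j - 5 + s) % 4 = 2 then p * v (j - 5) else 0)
    + (if 1 ≤ j ∧ (j - 1 + s) % 4 = 2 then q * v (j - 1) else 0)
    + (if 5 ≤ j ∧ (j - 5 + s) % 4 = 0 then q * v (j - 5) else 0)

lemma S_source (s : ℕ) (p q : ZMod d) (v : ℕ → ZMod d) (j : ℕ) (hj : (j + s) % 2 = 0) :
    S s p q v j = v j := by
  unfold S
  rw [if_neg (by omega), if_neg (by omega), if_neg (by omega), if_neg (by omega)]
  simp

lemma S_comp (s : ℕ) (p q p' q' : ZMod d) (v : ℕ → ZMod d) :
    S s p q (S s p' q' v) = S s (p + p') (q + q') v := by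
  funext j
  by_cases hj : (j + s) % 2 = 0
  · rw [S_source s _ _ _ j hj, S_source s _ _ _ j hj, S_source s _ _ _ j hj]
  · have h1 : 1 ≤ j → S s p' q' v (j - 1) = v (j - 1) :=
      fun h => S_source s _ _ _ _ (by omega)
    have h5 : 5 ≤ j → S s p' q' v (j - 5) = v (j - 5) :=
      fun h => S_source s _ _ _ _ (by omega)
    unfold S at h1 h5 ⊢
    by_cases a1 : 1 ≤ j
    · by_cases a5 : 5 ≤ j
      · rw [h1 a1, h5 a5]
        split_ifs <;> ring
      · rw [h1 a1]
        have n5 : ∀ r : Prop, ¬ (5 ≤ j ∧ r) := fun r h => a5 h.1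
        simp only [if_neg (n5 _)]
        split_ifs <;> ring
    · have n1 : ∀ r : Prop, ¬ (1 ≤ j ∧ r) := fun r h => a1 h.1
      have n5 : ∀ r : Prop, ¬ (5 ≤ j ∧ r) := fun r h => a1 (by omega)
      simp only [if_neg (n5 _), if_neg (n1 _)]
      ring

lemma S_zero (s : ℕ) (v : ℕ → ZMod d) : S s 0 0 v = v := by
  funext j
  simp [S]

/-- `S s p q` as a permutation of the boundary. -/
def P (s : ℕ) (p q : ZMod d) : Equiv.Perm (ℕ → ZMod d) where
  toFun := S s p q
  invFun := S s (-p) (-q)
  left_inv v := by rw [S_comp, neg_add_cancel, neg_add_cancel, S_zero]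
  right_inv v := by rw [S_comp, add_neg_cancel, add_neg_cancel, S_zero]

lemma P_mul (s : ℕ) (p q p' q' : ZMod d) : P s p q * P s p' q' = P s (p + p') (q + q') := by
  ext1 v
  exact S_comp s p q p' q' v

lemma P_inv (s : ℕ) (p q : ZMod d) : (P s p q)⁻¹ = P s (-p) (-q) := by
  rw [inv_eq_iff_mul_eq_one, P_mul, add_neg_cancel, add_neg_cancel]
  ext1 v
  exact S_zero s v

/-- The prefix of length `n` of a boundary point. -/
def pre (n : ℕ) (v : ℕ → ZMod d) : List (ZMod d) := List.ofFn (fun i : Fin n => v i)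

lemma pre_get (n : ℕ) (v : ℕ → ZMod d) (i : Fin (pre n v).length) : (pre n v).get i = v i :=
  List.get_ofFn (fun i : Fin n => v i) i

lemma pre_ext {v w : ℕ → ZMod d} (h : ∀ n, pre n v = pre n w) : v = w := by
  funext j
  have h1 := h (j + 1)
  unfold pre at h1
  have h2 := List.ofFn_injective h1
  exact congrFun h2 ⟨j, by omega⟩

/-- `φ` is the boundary action of `γ`. -/
def Rel (γ : Equiv.Perm (List (ZMod d))) (φ : Equiv.Perm (ℕ → ZMod d)) : Prop :=
  ∀ (n : ℕ) (v : ℕ → ZMod d), γ (pre n v) = pre n (φ v)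

lemma Rel.mul {γ γ' : Equiv.Perm (List (ZMod d))} {φ φ' : Equiv.Perm (ℕ → ZMod d)}
    (h : Rel γ φ) (h' : Rel γ' φ') : Rel (γ * γ') (φ * φ') := by
  intro n v
  rw [Equiv.Perm.mul_apply, Equiv.Perm.mul_apply, h', h]

lemma Rel.inv {γ : Equiv.Perm (List (ZMod d))} {φ : Equiv.Perm (ℕ → ZMod d)}
    (h : Rel γ φ) : Rel γ⁻¹ φ⁻¹ := by
  intro n v
  have h1 := h n (φ⁻¹ v)
  rw [show φ (φ⁻¹ v) = v from φ.apply_symm_apply v] at h1
  rw [← h1]
  exact γ.symm_apply_apply _

lemma Rel.one : Rel (1 : Equiv.Perm (List (ZMod d))) 1 := fun _ _ => rfl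

lemma Rel.pow {γ : Equiv.Perm (List (ZMod d))} {φ : Equiv.Perm (ℕ → ZMod d)}
    (h : Rel γ φ) (n : ℕ) : Rel (γ ^ n) (φ ^ n) := by
  induction n with
  | zero => simpa using Rel.one
  | succ n ih => rw [pow_succ, pow_succ]; exact ih.mul h

lemma Rel.eq_one {φ : Equiv.Perm (ℕ → ZMod d)} (h : Rel 1 φ) : φ = 1 := by
  ext1 v
  exact (pre_ext (fun n => (h n v))).symm

lemma sum_mat (s n j : ℕ) (hj : j < n) (v : ℕ → ZMod d) :
    ∑ i : Fin n, v i * mat d s i j =
      v j + (if 1 ≤ j ∧ (j - 1 + s) % 4 = 0 then v (j - 1) else 0)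
        + (if 5 ≤ j ∧ (j - 5 + s) % 4 = 2 then v (j - 5) else 0) := by
  rw [Fin.sum_univ_eq_sum_range (fun i => v i * mat d s i j) n]
  have key : ∀ i ∈ Finset.range n, v i * mat d s i j =
      (if i = j then v i else 0) + (if i + 1 = j ∧ (i + s) % 4 = 0 then v i else 0)
        + (if i + 5 = j ∧ (i + s) % 4 = 2 then v i else 0) := by
    intro i _
    unfold mat
    by_cases h0 : j = i
    · rw [if_pos h0, if_pos h0.symm, if_neg (by omega), if_neg (by omega)]
      simp
    · rw [if_neg h0, if_neg (show ¬ i = j from fun h => h0 h.symm)]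
      by_cases h1 : j = i + 1 ∧ (i + s) % 4 = 0
      · rw [if_pos h1, if_pos (show i + 1 = j ∧ (i + s) % 4 = 0 by omega),
          if_neg (show ¬ (i + 5 = j ∧ (i + s) % 4 = 2) by omega)]
        simp
      · rw [if_neg h1, if_neg (show ¬ (i + 1 = j ∧ (i + s) % 4 = 0) by omega)]
        by_cases h2 : j = i + 5 ∧ (i + s) % 4 = 2
        · rw [if_pos h2, if_pos (show i + 5 = j ∧ (i + s) % 4 = 2 by omega)]
          simp
        · rw [if_neg h2, if_neg (show ¬ (i + 5 = j ∧ (i + s) % 4 = 2) by omega)]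
          simp
  rw [Finset.sum_congr rfl key, Finset.sum_add_distrib, Finset.sum_add_distrib]
  congr 1
  · congr 1
    · rw [Finset.sum_ite_eq' (Finset.range n) j (fun i => v i), if_pos (Finset.mem_range.mpr hj)]
    · by_cases h : 1 ≤ j ∧ (j - 1 + s) % 4 = 0
      · rw [if_pos h, Finset.sum_eq_single (j - 1)]
        · rw [if_pos (by omega)]
        · intro i _ hi
          rw [if_neg (by omega)]
        · intro hi
          exact absurd (Finset.mem_range.mpr (by omega)) hi
      · rw [if_neg h]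
        apply Finset.sum_eq_zero
        intro i _
        rw [if_neg]
        rintro ⟨rfl, h2⟩
        exact h ⟨by omega, by simpa using h2⟩
  · by_cases h : 5 ≤ j ∧ (j - 5 + s) % 4 = 2
    · rw [if_pos h, Finset.sum_eq_single (j - 5)]
      · rw [if_pos (by omega)]
      · intro i _ hi
        rw [if_neg (by omega)]
      · intro hi
        exact absurd (Finset.mem_range.mpr (by omega)) hi
    · rw [if_neg h]
      apply Finset.sum_eq_zero
      intro i _
      rw [if_neg]
      rintro ⟨rfl, h2⟩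
      exact h ⟨by omega, by simpa using h2⟩

lemma T_pre (s n : ℕ) (v : ℕ → ZMod d) : T d s (fun _ => 0) (pre n v) = pre n (S s 1 0 v) := by
  change aff _ _ _ = _
  rw [aff_eq_ofFn _ _ _ (mat_lower s)]
  apply List.ext_getElem
  · simp [pre]
  · intro j h1 h2
    have hj : j < n := by simpa [pre] using h2
    have hlen : (pre n v).length = n := by simp [pre]
    have hsum : ∑ i : Fin (pre n v).length, (pre n v).get i * mat d s i j =
        ∑ i : Fin n, v i * mat d s i j := by
      refine Fintype.sum_equiv (finCongr hlen) _ _ ?_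
      intro i
      rw [pre_get]
      rfl
    rw [List.getElem_ofFn]
    simp only [zero_add]
    rw [hsum, sum_mat s n j hj v]
    simp [S, pre]

lemma rel_zero : Rel (T d 0 (fun _ => 0)) (P 0 1 0) := fun n v => T_pre 0 n v

lemma rel_one : Rel (T d 1 (fun _ => 0)) (P 1 1 0) := fun n v => T_pre 1 n v

lemma P_swap (s : ℕ) (v : ℕ → ZMod d) : S (s + 2) 1 0 v = S s 0 1 v := by
  funext j
  unfold S
  have e1 : (1 ≤ j ∧ (j - 1 + (s + 2)) % 4 = 0) ↔ (1 ≤ j ∧ (j - 1 + s) % 4 = 2) := by omega
  have e2 : (5 ≤ j ∧ (j - 5 + (s + 2)) % 4 = 2) ↔ (5 ≤ j ∧ (j - 5 + s) % 4 = 0) := by omega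
  simp only [e1, e2, zero_mul, ite_self, add_zero]

lemma rel_two : Rel (T d 2 (fun _ => 0)) (P 0 0 1) := by
  intro n v
  rw [T_pre]
  exact congrArg (pre n) (P_swap 0 v)

lemma rel_three : Rel (T d 3 (fun _ => 0)) (P 1 0 1) := by
  intro n v
  rw [T_pre]
  exact congrArg (pre n) (P_swap 1 v)

/-! ### Ping-pong on the top of the support -/

/-- `t` is the largest element of the support of `v`. -/
def Top (v : ℕ → ZMod d) (t : ℕ) : Prop := v t ≠ 0 ∧ ∀ i, t < i → v i = 0

/-- `φ` sends vectors whose top is `a` modulo `2` to vectors whose top is `b` modulo `2`, and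
raises the top. -/
def Raises (φ : Equiv.Perm (ℕ → ZMod d)) (a b : ℕ) : Prop :=
  ∀ (v : ℕ → ZMod d) (t : ℕ), Top v t → t % 2 = a →
    ∃ t', t < t' ∧ t' % 2 = b ∧ Top (φ v) t'

lemma Raises.mul {φ ψ : Equiv.Perm (ℕ → ZMod d)} {a b c : ℕ} (h : Raises φ b c)
    (h' : Raises ψ a b) : Raises (φ * ψ) a c := by
  intro v t ht hta
  obtain ⟨t1, h1, h1b, h1t⟩ := h' v t ht hta
  obtain ⟨t2, h2, h2c, h2t⟩ := h _ t1 h1t h1b
  exact ⟨t2, by omega, h2c, h2t⟩

lemma Raises.pow_mul {φ ψ : Equiv.Perm (ℕ → ZMod d)} {a b : ℕ} (h : Raises φ b b)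
    (h' : Raises ψ a b) (n : ℕ) : Raises (φ ^ n * ψ) a b := by
  induction n with
  | zero => simpa using h'
  | succ n ih => rw [pow_succ', mul_assoc]; exact h.mul ih

lemma Raises.mul_pow {φ ψ : Equiv.Perm (ℕ → ZMod d)} {a b : ℕ} (h : Raises φ a b)
    (h' : Raises ψ a a) (n : ℕ) : Raises (φ * ψ ^ n) a b := by
  induction n with
  | zero => simpa using h
  | succ n ih => rw [pow_succ, ← mul_assoc]; exact ih.mul h'

lemma Raises.pow {φ : Equiv.Perm (ℕ → ZMod d)} {a : ℕ} (h : Raises φ a a) {n : ℕ} (hn : 0 < n) :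
    Raises (φ ^ n) a a := by
  obtain ⟨m, rfl⟩ : ∃ m, n = m + 1 := ⟨n - 1, by omega⟩
  rw [pow_succ]
  exact h.pow_mul h m

lemma Raises.ne_one {φ : Equiv.Perm (ℕ → ZMod d)} {a b : ℕ} (h : Raises φ a b) (ha : a < 2)
    (hd : (1 : ZMod d) ≠ 0) : φ ≠ 1 := by
  rintro rfl
  have ht : Top (fun i => if i = a then (1 : ZMod d) else 0) a := by
    constructor
    · simpa using hd
    · intro i hi
      simp only
      rw [if_neg (by omega)]
  obtain ⟨t', h1, -, h2⟩ := h _ a ht (by omega)
  exact h2.1 (ht.2 t' h1)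

/-- The basic ping-pong lemma. -/
lemma raises_P (s : ℕ) (hs : s < 2) (p q : ZMod d)
    (hp : p = 0 ∨ p = 1 ∨ p = -1) (hq : q = 0 ∨ q = 1 ∨ q = -1) (h0 : ¬ (p = 0 ∧ q = 0)) :
    Raises (P s p q) s (1 - s) := by
  have hunit : ∀ r x : ZMod d, (r = 0 ∨ r = 1 ∨ r = -1) → r ≠ 0 → x ≠ 0 → r * x ≠ 0 := by
    rintro r x (rfl | rfl | rfl) hr hx
    · exact absurd rfl hr
    · simpa using hx
    · simpa using hx
  intro v t ht hts
  have hz : ∀ i, t < i → v i = 0 := ht.2
  change ∃ t', t < t' ∧ t' % 2 = 1 - s ∧ Top (S s p q v) t'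
  -- coefficient at distance five
  by_cases hc : (t + s) % 4 = 0
  · by_cases hq0 : q = 0
    · -- `q = 0`, `p ≠ 0`
      have hp0 : p ≠ 0 := fun h => h0 ⟨h, hq0⟩
      subst hq0
      by_cases h2 : 2 ≤ t ∧ v (t - 2) ≠ 0
      · refine ⟨t + 3, by omega, by omega, ?_, ?_⟩
        · unfold S
          rw [hz (t + 3) (by omega), if_neg (by omega),
            if_pos (show 5 ≤ t + 3 ∧ (t + 3 - 5 + s) % 4 = 2 by omega),
            show t + 3 - 5 = t - 2 by omega]
          simpa using hunit p _ hp hp0 h2.2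
        · intro i hi
          unfold S
          simp only [zero_mul, ite_self, add_zero]
          rw [hz i (by omega), hz (i - 1) (by omega)]
          by_cases hi5 : i = t + 5
          · subst hi5
            rw [if_neg (show ¬ (5 ≤ t + 5 ∧ (t + 5 - 5 + s) % 4 = 2) by omega)]
            simp
          · by_cases hi4 : i = t + 4
            · subst hi4
              rw [if_neg (show ¬ (5 ≤ t + 4 ∧ (t + 4 - 5 + s) % 4 = 2) by omega)]
              simp
            · rw [hz (i - 5) (by omega)]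
              simp
      · refine ⟨t + 1, by omega, by omega, ?_, ?_⟩
        · unfold S
          rw [hz (t + 1) (by omega),
            if_pos (show 1 ≤ t + 1 ∧ (t + 1 - 1 + s) % 4 = 0 by omega),
            if_neg (show ¬ (5 ≤ t + 1 ∧ (t + 1 - 5 + s) % 4 = 2) by omega),
            show t + 1 - 1 = t by omega]
          simpa using hunit p _ hp hp0 ht.1
        · intro i hi
          unfold S
          simp only [zero_mul, ite_self, add_zero]
          rw [hz i (by omega), hz (i - 1) (by omega)]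
          by_cases hi5 : i - 5 ≤ t
          · by_cases hi3 : i = t + 3
            · subst hi3
              have : 2 ≤ t → v (t - 2) = 0 := fun h => by
                by_contra h'
                exact h2 ⟨h, h'⟩
              by_cases ht2 : 2 ≤ t
              · rw [show t + 3 - 5 = t - 2 by omega, this ht2]
                simp
              · rw [if_neg (show ¬ (5 ≤ t + 3 ∧ _) by omega)]
                simp
            · rw [if_neg (show ¬ (5 ≤ i ∧ (i - 5 + s) % 4 = 2) by omega)]
              simp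
          · rw [hz (i - 5) (by omega)]
            simp
    · refine ⟨t + 5, by omega, by omega, ?_, ?_⟩
      · unfold S
        rw [hz (t + 5) (by omega), hz (t + 5 - 1) (by omega),
          if_neg (show ¬ (5 ≤ t + 5 ∧ (t + 5 - 5 + s) % 4 = 2) by omega),
          if_pos (show 5 ≤ t + 5 ∧ (t + 5 - 5 + s) % 4 = 0 by omega),
          show t + 5 - 5 = t by omega]
        simpa using hunit q _ hq hq0 ht.1
      · intro i hi
        unfold S
        rw [hz i (by omega), hz (i - 1) (by omega), hz (i - 5) (by omega)]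
        simp
  · by_cases hp0 : p = 0
    · -- `p = 0`, `q ≠ 0`
      have hq0 : q ≠ 0 := fun h => h0 ⟨hp0, h⟩
      subst hp0
      by_cases h2 : 2 ≤ t ∧ v (t - 2) ≠ 0
      · refine ⟨t + 3, by omega, by omega, ?_, ?_⟩
        · unfold S
          simp only [zero_mul, ite_self, add_zero]
          rw [hz (t + 3) (by omega), if_neg (by omega),
            if_pos (show 5 ≤ t + 3 ∧ (t + 3 - 5 + s) % 4 = 0 by omega),
            show t + 3 - 5 = t - 2 by omega]
          simpa using hunit q _ hq hq0 h2.2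
        · intro i hi
          unfold S
          simp only [zero_mul, ite_self, add_zero]
          rw [hz i (by omega), hz (i - 1) (by omega)]
          by_cases hi5 : i - 5 ≤ t
          · rw [if_neg (show ¬ (5 ≤ i ∧ (i - 5 + s) % 4 = 0) by omega)]
            simp
          · rw [hz (i - 5) (by omega)]
            simp
      · refine ⟨t + 1, by omega, by omega, ?_, ?_⟩
        · unfold S
          simp only [zero_mul, ite_self, add_zero]
          rw [hz (t + 1) (by omega),
            if_pos (show 1 ≤ t + 1 ∧ (t + 1 - 1 + s) % 4 = 2 by omega),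
            if_neg (show ¬ (5 ≤ t + 1 ∧ (t + 1 - 5 + s) % 4 = 0) by omega),
            show t + 1 - 1 = t by omega]
          simpa using hunit q _ hq hq0 ht.1
        · intro i hi
          unfold S
          simp only [zero_mul, ite_self, add_zero]
          rw [hz i (by omega), hz (i - 1) (by omega)]
          by_cases hi5 : i - 5 ≤ t
          · by_cases hi3 : i = t + 3
            · subst hi3
              have : 2 ≤ t → v (t - 2) = 0 := fun h => by
                by_contra h'
                exact h2 ⟨h, h'⟩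
              by_cases ht2 : 2 ≤ t
              · rw [show t + 3 - 5 = t - 2 by omega, this ht2]
                simp
              · rw [if_neg (show ¬ (5 ≤ t + 3 ∧ _) by omega)]
                simp
            · rw [if_neg (show ¬ (5 ≤ i ∧ (i - 5 + s) % 4 = 0) by omega)]
              simp
          · rw [hz (i - 5) (by omega)]
            simp
    · refine ⟨t + 5, by omega, by omega, ?_, ?_⟩
      · unfold S
        rw [hz (t + 5) (by omega), hz (t + 5 - 1) (by omega),
          if_pos (show 5 ≤ t + 5 ∧ (t + 5 - 5 + s) % 4 = 2 by omega),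
          if_neg (show ¬ (5 ≤ t + 5 ∧ (t + 5 - 5 + s) % 4 = 0) by omega),
          show t + 5 - 5 = t by omega]
        simpa using hunit p _ hp hp0 ht.1
      · intro i hi
        unfold S
        rw [hz i (by omega), hz (i - 1) (by omega), hz (i - 5) (by omega)]
        simp

/-! ### The commutators of powers -/

lemma comm_pow_ne_one (hd : (1 : ZMod d) ≠ 0) {n m : ℕ} (hn : 0 < n) (hm : 0 < m) :
    ⁅((P 0 1 0 : Equiv.Perm (ℕ → ZMod d)) * P 1 1 0) ^ n,
      ((P 0 0 1 : Equiv.Perm (ℕ → ZMod d)) * P 1 0 1) ^ n⁆ ^ m ≠ 1 := by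
  obtain ⟨k, rfl⟩ : ∃ k, n = k + 1 := ⟨n - 1, by omega⟩
  set a : Equiv.Perm (ℕ → ZMod d) := P 0 1 0 with ha
  set b : Equiv.Perm (ℕ → ZMod d) := P 1 1 0 with hb
  set a' : Equiv.Perm (ℕ → ZMod d) := P 0 0 1 with ha'
  set b' : Equiv.Perm (ℕ → ZMod d) := P 1 0 1 with hb'
  have h10 : ¬ ((1 : ZMod d) = 0 ∧ (0 : ZMod d) = 0) := fun h => hd h.1
  have h01 : ¬ ((0 : ZMod d) = 0 ∧ (1 : ZMod d) = 0) := fun h => hd h.2
  have hm0 : ¬ ((-1 : ZMod d) = 0) := fun h => hd (by simpa using h)
  have ra : Raises a 0 1 := raises_P 0 (by omega) 1 0 (by tauto) (by tauto) h10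
  have rb : Raises b 1 0 := raises_P 1 (by omega) 1 0 (by tauto) (by tauto) h10
  have ra' : Raises a' 0 1 := raises_P 0 (by omega) 0 1 (by tauto) (by tauto) h01
  have rb' : Raises b' 1 0 := raises_P 1 (by omega) 0 1 (by tauto) (by tauto) h01
  have rai : Raises a⁻¹ 0 1 := by
    rw [ha, P_inv, neg_zero]
    exact raises_P 0 (by omega) _ _ (by tauto) (by tauto) (fun h => hm0 h.1)
  have rbi : Raises b⁻¹ 1 0 := by
    rw [hb, P_inv, neg_zero]
    exact raises_P 1 (by omega) _ _ (by tauto) (by tauto) (fun h => hm0 h.1)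
  have rai' : Raises a'⁻¹ 0 1 := by
    rw [ha', P_inv, neg_zero]
    exact raises_P 0 (by omega) _ _ (by tauto) (by tauto) (fun h => hm0 h.2)
  have rbi' : Raises b'⁻¹ 1 0 := by
    rw [hb', P_inv, neg_zero]
    exact raises_P 1 (by omega) _ _ (by tauto) (by tauto) (fun h => hm0 h.2)
  have rbb : Raises (b' * b⁻¹) 1 0 := by
    rw [hb, hb', P_inv, P_mul]
    refine raises_P 1 (by omega) _ _ (Or.inr (Or.inr (by simp))) (Or.inr (Or.inl (by simp))) ?_
    intro h
    exact hd (by simpa using h.2)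
  have raa : Raises (a'⁻¹ * a) 0 1 := by
    rw [ha, ha', P_inv, P_mul]
    refine raises_P 0 (by omega) _ _ (Or.inr (Or.inl (by simp))) (Or.inr (Or.inr (by simp))) ?_
    intro h
    exact hd (by simpa using h.1)
  set x := a * b with hx
  set y := a' * b' with hy
  have rx : Raises x 1 1 := ra.mul rb
  have ry : Raises y 1 1 := ra'.mul rb'
  have rxi : Raises x⁻¹ 0 0 := by rw [hx, mul_inv_rev]; exact rbi.mul rai
  have ryi : Raises y⁻¹ 0 0 := by rw [hy, mul_inv_rev]; exact rbi'.mul rai'
  -- `w = y ^ n * x ^ (-n)`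
  have rw1 : Raises (y ^ (k + 1) * (x ^ (k + 1))⁻¹) 0 1 := by
    have e : y ^ (k + 1) * (x ^ (k + 1))⁻¹ =
        y ^ k * ((a' * ((b' * b⁻¹) * a⁻¹)) * (x⁻¹) ^ k) := by
      have e1 : (x ^ (k + 1))⁻¹ = (b⁻¹ * a⁻¹) * (x⁻¹) ^ k := by
        rw [← inv_pow, pow_succ', hx, mul_inv_rev]
      have e2 : y ^ (k + 1) = y ^ k * (a' * b') := by rw [pow_succ]
      rw [e1, e2]
      simp only [mul_assoc]
    rw [e]
    exact ry.pow_mul ((ra'.mul (rbb.mul rai)).mul_pow rxi k) k
  -- `u = y ^ (-n) * x ^ n`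
  have ru1 : Raises ((y ^ (k + 1))⁻¹ * x ^ (k + 1)) 1 0 := by
    have e : (y ^ (k + 1))⁻¹ * x ^ (k + 1) =
        (y⁻¹) ^ k * ((b'⁻¹ * ((a'⁻¹ * a) * b)) * x ^ k) := by
      have e1 : (y ^ (k + 1))⁻¹ = (y⁻¹) ^ k * (b'⁻¹ * a'⁻¹) := by
        rw [← inv_pow, pow_succ, hy, mul_inv_rev]
      have e2 : x ^ (k + 1) = (a * b) * x ^ k := by rw [pow_succ']
      rw [e1, e2]
      simp only [mul_assoc]
    rw [e]
    exact ryi.pow_mul ((rbi'.mul (raa.mul rb)).mul_pow rx k) k
  have hconj : ⁅x ^ (k + 1), y ^ (k + 1)⁆ =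
      y ^ (k + 1) * (((y ^ (k + 1))⁻¹ * x ^ (k + 1)) * (y ^ (k + 1) * (x ^ (k + 1))⁻¹)) *
        (y ^ (k + 1))⁻¹ := by
    rw [commutatorElement_def]
    group
  rw [hconj, conj_pow]
  intro h
  have h2 : (((y ^ (k + 1))⁻¹ * x ^ (k + 1)) * (y ^ (k + 1) * (x ^ (k + 1))⁻¹)) ^ m = 1 := by
    rw [mul_inv_eq_one, mul_eq_left] at h
    exact h
  exact ((ru1.mul rw1).pow hm).ne_one (by omega) hd h2

/-- **The affine automaton question has a negative answer for every `d ≥ 2`.**
For every `d ≥ 2` there is a finite-state affine automorphism `g` of the `d`-ary tree such that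
the group generated by the automaton of `g` is infinite and is not a finite extension of
`(ZMod e) ^ k ≀ ℤ ^ l`, for any `e ≥ 1` and any `k`, `l`. -/
theorem result (d : ℕ) (hd : 2 ≤ d) :
    ∃ g : Equiv.Perm (List (ZMod d)), IsAffine d g ∧ (states g).Finite ∧
      Infinite (autGroup g) ∧
      ∀ e k l : ℕ, 1 ≤ e → ¬ IsFiniteExtension (autGroup g) (Wreath e k l) := by
  have : NeZero d := ⟨by omega⟩
  have : Fact (1 < d) := ⟨by omega⟩
  have h1 : (1 : ZMod d) ≠ 0 := one_ne_zero
  -- the elements of the group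
  have hmem : ∀ s, T d s (fun _ => 0) ∈ autGroup (gen d) := fun s =>
    Subgroup.subset_closure (lin_mem_states s)
  let X : autGroup (gen d) := ⟨T d 0 (fun _ => 0), hmem 0⟩ * ⟨T d 1 (fun _ => 0), hmem 1⟩
  let Y : autGroup (gen d) := ⟨T d 2 (fun _ => 0), hmem 2⟩ * ⟨T d 3 (fun _ => 0), hmem 3⟩
  have hX : Rel ((X : autGroup (gen d)) : Equiv.Perm (List (ZMod d))) (P 0 1 0 * P 1 1 0) :=
    rel_zero.mul rel_one
  have hY : Rel ((Y : autGroup (gen d)) : Equiv.Perm (List (ZMod d))) (P 0 0 1 * P 1 0 1) :=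
    rel_two.mul rel_three
  have key : ∀ n m : ℕ, 0 < n → 0 < m → ⁅X ^ n, Y ^ n⁆ ^ m ≠ 1 := by
    intro n m hn hm h
    have h2 := congrArg (autGroup (gen d)).subtype h
    rw [map_pow, map_commutatorElement, map_pow, map_pow, map_one] at h2
    have h3 : Rel (⁅((X : autGroup (gen d)) : Equiv.Perm (List (ZMod d))) ^ n,
        ((Y : autGroup (gen d)) : Equiv.Perm (List (ZMod d))) ^ n⁆ ^ m)
        (⁅((P 0 1 0 : Equiv.Perm (ℕ → ZMod d)) * P 1 1 0) ^ n,
      ((P 0 0 1 : Equiv.Perm (ℕ → ZMod d)) * P 1 0 1) ^ n⁆ ^ m) := by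
      apply Rel.pow
      rw [commutatorElement_def, commutatorElement_def]
      exact (((hX.pow n).mul (hY.pow n)).mul (hX.pow n).inv).mul (hY.pow n).inv
    have h4 : ⁅((X : autGroup (gen d)) : Equiv.Perm (List (ZMod d))) ^ n,
        ((Y : autGroup (gen d)) : Equiv.Perm (List (ZMod d))) ^ n⁆ ^ m = 1 := h2
    rw [h4] at h3
    exact comm_pow_ne_one h1 hn hm h3.eq_one
  refine ⟨gen d, gen_affine, finite_states, ?_, ?_⟩
  · by_contra hinf
    rw [not_infinite_iff_finite] at hinf
    have h5 := (isOfFinOrder_of_finite ⁅X ^ 1, Y ^ 1⁆)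
    rw [isOfFinOrder_iff_pow_eq_one] at h5
    obtain ⟨m, hm, h6⟩ := h5
    exact key 1 m one_pos hm h6
  · intro e k l he hext
    obtain ⟨n, hn, hlaw⟩ := extension_law hext
    exact key n e hn he (hlaw X Y)

end Pool.Agent.Results.MP_7b3742_al.AffineAutomata
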